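import Mathlib
import Pool.Agent.W543.MO.Main

/-!
# Chow motives over finite fields: abelian categories

Let `g i` (`i` in a finite set `I`) be positive integers, `r` an integer smaller than all the `g i`
and `E` a number field.  For a prime power `q` let `S i` be the set of the characteristic
polynomials of Frobenius of the ordinary abelian varieties of dimension `g i` over the field with `q`
elements, or of all abelian varieties of dimension `g i`, or any set in between.  By Weil, Honda and
Tate its elements correspond to the isogeny classes, the first set contains `ordinaryWeilPolys q
(g i)`, and the second one is contained in `weilPolys q (g i)`.

The theorem: for all families `f i` in `S i` with the exception of a proportion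
`O (q ^ (-1 / 6) log q)`, the constant depending only on `g` and `E`, and all `s > 0`, `Q = q ^ s`,
the following holds over the field `k` with `Q` elements.  Let `𝒵` be any class of smooth
projective varieties which is closed under products, and `𝒱` any larger class, closed under
products, all of whose members are dominated by products `A × Z` with

* `Z` in `𝒵` such that the eigenvalues of Frobenius on the cohomology of `Z` and their conjugates
  generate a group of rank at most `r` modulo the group of the numbers with a power in `E`, for
  instance `Z` dominated by a product of powers of given curves the sum of whose genera is `r`;
* `A` isogenous to a product of powers of abelian varieties coming from the field with `q` elements,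
  with characteristic polynomials `f i`;
* such that homologically trivial self-correspondences of degree zero of `A × Z` are nilpotent, for
  instance the motive of `Z` is finite-dimensional in the sense of Kimura and O'Sullivan (for
  example `Z` is dominated by a product of curves).

Then **the category of Chow motives of the class `𝒱` is abelian and semisimple if and only if this
is true for the class `𝒵`**, if and only if rational and numerical equivalence coincide on the
varieties in `𝒵`. In particular it is abelian for `𝒵` the class of the point, or of the products of
at most `r` given elliptic curves (and their powers), where rational and numerical equivalence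
are known to coincide (Spiess, Soule, Kahn).

Here the category `CHMot C` of Chow motives of a class of varieties consists of the direct
summands of the finite direct sums of the Tate twists `h(X)(m)`, `X` in the class, `m` an integer;
for all smooth projective varieties this is the category `CHMot(k)` of the triples `(X, p, m)`.

The framework (`TheoryData`, `IsChow`, `IsWeil`) is the one of helper492: the Chow groups `C` with
their pull-backs, push-forwards and products, and a Weil cohomology theory `H` with coefficients in
an algebraically closed field `K`, on the class `𝒱` of smooth proper varieties.

The proof. (1) Kunneth formula for the Chow groups of `A × Z` (helper484, sieve by helper521): it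
shows that rational and numerical equivalence coincide on `A × Z`, hence on the varieties dominated
by `A × Z`, if and only if they coincide on `Z`. (2) The theorem of Jannsen, for Chow motives: if
rational and numerical equivalence coincide, the Lefschetz trace formula shows that a morphism `f`
such that all `g ∘ f` are nilpotent is zero, the groups of morphisms are finite-dimensional, so the
rings of endomorphisms are semisimple and every morphism `f` has a pseudo-inverse `g`,
`f ∘ g ∘ f = f`; since idempotents split the category is abelian and semisimple. The trace formula
is used without graded commutativity of the cohomology rings, by means of their Nakayama
automorphisms. (3) Conversely let `z` be a numerically trivial class in `CH^i(X)`. In a semisimple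
category the morphism `u` given by the class `1 × z` on `X × X` has a pseudo-inverse `g`, but
`u ∘ g ∘ u` is the multiple of `u` by the degree of the intersection of `z` with the push-forward of
`g` to `X`, which is zero. So `u = 0` and `z = 0`.

The parts of the proof in `Pool.Agent.W543.MO.Parts` were formalized by helpers 119, 571, 319, 509,
15, 494, 554, 366, 358, 368 and 589.
-/

set_option autoImplicit false

namespace Pool.Agent.Results.MP_6c4da4_ag.AlmostAllAbelianFactors

open Polynomial Pool.Agent.W521.Descent Pool.Agent.W521.Count Pool.Agent.W484.TB
  Pool.Agent.W543.MO

/-- `weilPolys q g` is the set of monic integral polynomials of degree `2 g` with constant term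
`q ^ g` and all roots of absolute value `√q`; `ordinaryWeilPolys q g` is the subset of those
whose coefficient of index `g` is prime to `q`. -/
theorem result {I : Type} [Fintype I] (g : I → ℕ) (r : ℕ) (hr : ∀ i, r < g i)
    (E : IntermediateField ℚ ℂ) [FiniteDimensional ℚ E] :
    ∃ C : ℝ, ∀ q : ℕ, IsPrimePow q → ∀ S : I → Set ℤ[X],
      (∀ i, ordinaryWeilPolys q (g i) ⊆ S i ∧ S i ⊆ weilPolys q (g i)) →
      (∀ i, (S i).Finite ∧ (S i).Nonempty) ∧
      ({f : I → ℤ[X] | (∀ i, f i ∈ S i) ∧ ¬ MotForRankOver E q r f}.ncard : ℝ) ≤
        C * (Real.log q * (q : ℝ) ^ (-(1 / 6) : ℝ)) * ∏ i, ((S i).ncard : ℝ) :=
  count_of_goodU (splitPrimes E) (dense_splitPrimes E) g
    (fun i => (Nat.zero_le r).trans_lt (hr i)) (fun q f => MotForRankOver E q r f)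
    fun _ hq x hx => motForRankOver_of_good g E hq.one_lt r hr x hx

end Pool.Agent.Results.MP_6c4da4_ag.AlmostAllAbelianFactors
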